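import Pool.Agent.X330.MTJ.TN
import Pool.Agent.X330.MT.Fun

/-! The signed evaluation at the level of functions. -/

namespace Pool.Agent.X330.MTJ

open Pool.Agent.X287.MTRing Pool.Agent.X287.MTFun Pool.Agent.X287.MTAl Pool.Agent.X330.MT

theorem F_shift (c : ℤ) (l : List ℤ) : F (l.map (· + c)) = F l := by
  simp only [F, List.length_map]
  exact Pool.Agent.X144.MT.al_shift c l.length l

theorem omL_map (c p : ℤ) (k : ℕ) : (omL p k).map (· + c) = omL (p + c) k := by
  induction k with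
  | zero => rfl
  | succ k ih =>
    simp only [omL, List.map_cons, ih]
    have : p + (k : ℤ) + c = p + c + k := by ring
    rw [this]

theorem F_om (n : ℕ) (p : ℤ) : F (omL p n) = F (inc 1 n) := by
  have h := F_sigma 0 n 0
  have e : sigma 0 n 0 = omL 1 n := by simp [sigma, inc]
  have e2 : omL p n = (omL 1 n).map (· + (p - 1)) := by
    rw [omL_map]
    congr 1
    ring
  rw [e2, F_shift, ← e, h]
  simp

/-- The row step of `Om_[2,n+1] t_1`. -/
theorem D_om_one {A : Type*} [Ring A] (t : ℤ → A) (p : ℤ) (k : ℕ) :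
    D t (omL (p + 1) (k + 1) ++ [p]) = (-1 : ℤ) ^ (k + 1) • Om t (p + 1) (k + 1) := by
  rw [D_Om]
  have h1 : D t ((p + 1) :: [p]) = 0 := by
    simp only [D, I_pred]
    simp
  have h2 : D t [p] = 1 := rfl
  rw [h1, h2, pow_succ]
  simp

theorem F_om_one (k : ℕ) :
    F (omL 2 (k + 1) ++ [1]) = (-1 : ℤ) ^ (k + 1) * F (inc 1 (k + 1)) := by
  have hr := F_row (omL 2 (k + 1) ++ [1]) (by simp)
  have h2 := D_coe (omL 2 (k + 1) ++ [1]) ⟨F, F_ctx⟩
  have h3 := D_om_one Pool.Agent.X287.MTFun.T 1 k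
  have e : (1 : ℤ) + 1 = 2 := by norm_num
  rw [e] at h3
  rw [hr, row]
  change D T0 (omL 2 (k + 1) ++ [1]) (⟨F, F_ctx⟩ : M).1 [] = _
  rw [← h2, h3]
  have h4 : (((-1 : ℤ) ^ (k + 1) • Om Pool.Agent.X287.MTFun.T 2 (k + 1)) ⟨F, F_ctx⟩ : M)
      = (-1 : ℤ) ^ (k + 1) • (Om Pool.Agent.X287.MTFun.T 2 (k + 1) ⟨F, F_ctx⟩ : M) := rfl
  rw [h4, Submodule.coe_smul, Pi.smul_apply, smul_eq_mul, ← omL_prod, prod_coe, prod_apply,
    List.nil_append]
  exact congrArg (fun z => (-1 : ℤ) ^ (k + 1) * z) (F_om (k + 1) 2)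

/-- **The signed evaluation.** -/
theorem F_signed (n : ℕ) :
    F (inc 1 (n + 1) ++ inc 1 n) = (-1 : ℤ) ^ n * F (inc 1 n) := by
  have h1 : F (inc 1 (n + 1) ++ inc 1 n) = F (omL 2 n ++ [1]) := by
    apply eq_of_prod3 F_ctx3
    have hs := TN R_rel R_sym3 1 n
    have e0 : (1 : ℤ) + 1 = 2 := by norm_num
    rw [e0] at hs
    rw [List.map_append, List.prod_append, List.map_append, List.prod_append, omL_prod]
    simp only [P] at hs
    rw [hs]
    simp
  rw [h1]
  cases n with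
  | zero =>
    have hi := F_prefix 0 1
    have hr := F_row [1] (by simp)
    simp only [omL, List.nil_append, pow_zero, one_mul, inc]
    rw [hr]
    simp [row, D]
  | succ k => exact F_om_one k

end Pool.Agent.X330.MTJ
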