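import Pool.Agent.X330.MTJ.KJ

/-! The identity J. -/

namespace Pool.Agent.X330.MTJ

open Pool.Agent.X287.MTRing Pool.Agent.X330.MT

variable {A : Type*} [Ring A]

/-- `∇ t_{p} ∇ t_{p+1} ⋯ ∇ t_{p+n-1}`, `∇ t_x = t_x - t_{x-1}`. -/
def NP (t : ℤ → A) (p : ℤ) (n : ℕ) : A := P (fun x => t x - t (x - 1)) p n

theorem NP_succ (t : ℤ → A) (p : ℤ) (n : ℕ) :
    NP t p (n + 1) = NP t p n * (t (p + n) - t (p + n - 1)) := by
  rw [NP, P_succ_right, NP]

/-- `J_{n+1}` : `∇ a_1 ⋯ ∇ a_{n+1} = - P_n a_0 + (-1)^n a_{n+1} P_n` with `a_1 = t p`. -/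
theorem JJ {t : ℤ → A} (h : Rel t) (h3 : Sym3 t) (p : ℤ) (n : ℕ) :
    NP t p (n + 1) = - (P t p n * t (p - 1))
      + (((-1 : ℤ) ^ n : ℤ) : A) * (t (p + n) * P t p n) := by
  induction n with
  | zero =>
    simp [NP, P, inc]
    abel
  | succ n ih =>
    rw [NP_succ, ih]
    have k := KK h h3 p n
    have r := h.rel (p - 1) (p + n)
    have e1 : p - 1 + 1 = p := by ring
    have e2 : p + ((n + 1 : ℕ) : ℤ) = p + n + 1 := by push_cast; ring
    have e3 : p + (n : ℤ) + 1 - 1 = p + n := by ring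
    rw [e1] at r
    rw [e2, e3, P_succ_right]
    set a0 := t (p - 1)
    set c := t (p + n)
    set b := t (p + n + 1)
    set Q := P t p n
    have r' := congrArg (fun z => Q * z) r
    simp only [mul_zero] at r'
    rw [← sub_eq_zero] at k ⊢
    rcases Int.isUnit_iff.1 (show IsUnit ((-1 : ℤ) ^ n) from (isUnit_one.neg).pow n) with u | u
    · rw [u] at k
      rw [pow_succ, u]
      have fin := congrArg₂ (fun x y : A => x - y) r' k
      simp only [sub_zero] at fin
      rw [← fin]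
      push_cast
      noncomm_ring
    · rw [u] at k
      rw [pow_succ, u]
      have fin := congrArg₂ (fun x y : A => x - y) r' k
      simp only [sub_zero] at fin
      rw [← fin]
      push_cast
      noncomm_ring

end Pool.Agent.X330.MTJ
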