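import Pool.Agent.X330.MTJ.Ser

/-! The identities K and J. -/

namespace Pool.Agent.X330.MTJ

open Pool.Agent.X287.MTRing Pool.Agent.X330.MT PowerSeries

variable {A : Type*} [Ring A]

theorem cc_alg (c : Polynomial ℤ) :
    PowerSeries.constantCoeff (algebraMap (Polynomial ℤ) (PowerSeries A) c)
      = ((c.coeff 0 : ℤ) : A) := by
  have : (PowerSeries.constantCoeff (R := A)).comp (algebraMap (Polynomial ℤ) (PowerSeries A))
      = (Int.castRingHom A).comp Polynomial.constantCoeff := by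
    apply Polynomial.ringHom_ext
    · intro a
      simp
    · have : algebraMap (Polynomial ℤ) (PowerSeries A) Polynomial.X = PowerSeries.X := by
        have := T_smul (1 : PowerSeries A)
        rwa [Algebra.smul_def, mul_one, mul_one] at this
      rw [RingHom.comp_apply, this]
      simp
  have h := congrArg (fun f => f c) this
  simpa using h

theorem cc_smul (c : Polynomial ℤ) (f : PowerSeries A) :
    PowerSeries.constantCoeff (c • f) = ((c.coeff 0 : ℤ) : A) * PowerSeries.constantCoeff f := by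
  rw [Algebra.smul_def, map_mul, cc_alg]

theorem cc_Bs (t : ℤ → A) (q : ℤ) : PowerSeries.constantCoeff (Bs t q) = t q := by
  rw [← PowerSeries.coeff_zero_eq_constantCoeff_apply, Bs, PowerSeries.coeff_mk]
  simp

/-- `E k : (-1)^k P_{k+1} a_1 = S_{k+1} P_{k+1}` -/
def EE (t : ℤ → A) (p : ℤ) (k : ℕ) : Prop :=
  (((-1 : ℤ) ^ k : ℤ) : A) * (P t p (k + 1) * t p) = S t p (k + 1) * P t p (k + 1)

/-- `G m : (-1)^m (1-T) P_m B a_1 = S_m P_m B + κ B P_m B` -/
def GG (t : ℤ → A) (p : ℤ) (m : ℕ) : Prop :=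
  (((-1) ^ m : Polynomial ℤ) * (1 - T)) • (C (P t p m) * (Bs t (p + m) * C (t p)))
    = C (S t p m) * (C (P t p m) * Bs t (p + m))
      + (1 - T + T ^ 2) • (Bs t (p + m) * (C (P t p m) * Bs t (p + m)))

theorem base {t : ℤ → A} (h : Rel t) (h3 : Sym3 t) (p : ℤ) : EE t p 0 ∧ GG t p 1 := by
  constructor
  · simp [EE, P, inc, S]
  · have hP : P t p 1 = t p := by simp [P, inc]
    have hS : S t p 1 = t p := by simp [S]
    rw [GG, hP, hS]
    have e : p + ((1 : ℕ) : ℤ) = p + 1 := by simp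
    rw [e]
    have q := Q1 h (p + 1)
    have e2 : p + 1 - 1 = p := by ring
    rw [e2] at q
    have q1 := congrArg (fun r => r * C (t p)) q
    have q2 := congrArg (fun r => C (t p) * r) q
    have xx := XX h h3 (p + 1) p
    have ax := aaX h (p + 1) p
    have c0 : C (t p) * (C (t p) * C (t p)) = (0 : PowerSeries A) := by
      rw [← map_mul, ← map_mul, h.cube, map_zero]
    simp only [mul_sub, sub_mul, mul_smul_comm, smul_mul_assoc, mul_assoc] at q1 q2
    rw [c0] at q1 q2
    linear_combination (norm := module) q1 + q2 - (1 - T + T ^ 2) • xx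
      - T • ax

/-- Extraction of the constant coefficient. -/
theorem extract {t : ℤ → A} (p : ℤ) (m : ℕ) (hG : GG t p m) : EE t p m := by
  have e := congrArg PowerSeries.constantCoeff hG
  rw [cc_smul, map_add, cc_smul] at e
  simp only [map_mul, cc_Bs, PowerSeries.constantCoeff_C] at e
  have c1 : ((((-1) ^ m : Polynomial ℤ) * (1 - T)).coeff 0 : ℤ) = (-1) ^ m := by
    rw [Polynomial.coeff_zero_eq_eval_zero]
    simp
  have c2 : ((1 - T + T ^ 2 : Polynomial ℤ).coeff 0 : ℤ) = 1 := by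
    simp
  rw [c1, c2] at e
  rw [EE, P_succ_right, S]
  rw [Int.cast_one, one_mul] at e
  rw [mul_assoc, e, add_mul]

theorem GG' {t : ℤ → A} (p : ℤ) (m : ℕ) (hG : GG t p m) :
    -((1 - T) • (C (t (p + m)) * (C (P t p m) * C (t (p + m)))))
      + C (S t p m) * (C (P t p m) * Bs t (p + m + 1))
      + (1 - T + T ^ 2) • (C (t (p + m)) * (C (P t p m) * Bs t (p + m + 1)))
      + (1 - T + T ^ 2) • (Bs t (p + m + 1) * (C (P t p m) * C (t (p + m))))
      + ((1 - T + T ^ 2) * T) • (Bs t (p + m + 1) * (C (P t p m) * Bs t (p + m + 1)))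
      = - (((-1) ^ m : Polynomial ℤ) • (C (P t p m) * (C (t (p + m)) * C (t p))))
        + (((-1) ^ m : Polynomial ℤ) * (1 - T)) • (C (P t p m) * (Bs t (p + m + 1) * C (t p))) := by
  apply T_cancel
  have hE := extract p m hG
  have hE' : ((-1) ^ m : Polynomial ℤ) • (C (P t p m) * (C (t (p + m)) * C (t p)))
      = C (S t p m) * (C (P t p m) * C (t (p + m)))
        + C (t (p + m)) * (C (P t p m) * C (t (p + m))) := by
    have e := congrArg (fun r : A => (C r : PowerSeries A)) hE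
    rw [P_succ_right, S] at e
    simp only [map_mul, map_add, add_mul, mul_assoc] at e
    rw [← e]
    have : ((-1) ^ m : Polynomial ℤ) = (((-1 : ℤ) ^ m : ℤ) : Polynomial ℤ) := by simp
    rw [this, Int.cast_smul_eq_zsmul, zsmul_eq_mul]
    simp
  have hG' := hG
  rw [GG, Bs_eq t (p + m)] at hG'
  simp only [mul_add, add_mul, mul_smul_comm, smul_mul_assoc] at hG'
  linear_combination (norm := module) hE' - hG'

theorem GG_succ {t : ℤ → A} (h : Rel t) (h3 : Sym3 t) (p : ℤ) (k : ℕ) (hE : EE t p k)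
    (hG : GG t p (k + 1)) : GG t p (k + 2) := by
  have hE0 := extract p (k + 1) hG
  have hG' := GG' p (k + 1) hG
  have e1 : p + ((k + 1 : ℕ) : ℤ) + 1 - 1 = p + (k + 1 : ℕ) := by ring
  have q := Q1 h (p + (k + 1 : ℕ) + 1)
  rw [e1] at q
  have sc : ∀ n : ℕ, ((-1) ^ n : Polynomial ℤ) = (((-1 : ℤ) ^ n : ℤ) : Polynomial ℤ) := by
    intro n; simp
  have hE0' : ((-1) ^ (k + 1) : Polynomial ℤ) • (C (P t p (k + 1)) * (C (t (p + (k + 1 : ℕ)))
        * C (t p)))
      = C (S t p (k + 1)) * (C (P t p (k + 1)) * C (t (p + (k + 1 : ℕ))))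
        + C (t (p + (k + 1 : ℕ))) * (C (P t p (k + 1)) * C (t (p + (k + 1 : ℕ)))) := by
    have e := congrArg (fun r : A => (C r : PowerSeries A)) hE0
    rw [P_succ_right, S] at e
    simp only [map_mul, map_add, add_mul, mul_assoc] at e
    rw [← e, sc, Int.cast_smul_eq_zsmul, zsmul_eq_mul]
    simp
  have hE1' : ((-1) ^ (k + 1) : Polynomial ℤ) • (C (P t p (k + 1)) * C (t p))
      = - (C (S t p (k + 1)) * C (P t p (k + 1)) : PowerSeries A) := by
    have e := congrArg (fun r : A => (C r : PowerSeries A)) hE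
    simp only [map_mul] at e
    rw [← e, sc, Int.cast_smul_eq_zsmul, zsmul_eq_mul]
    simp [pow_succ]
  have st := step T ((-1) ^ (k + 1) : Polynomial ℤ) (C (P t p (k + 1))) (C (S t p (k + 1)))
    (C (t (p + (k + 1 : ℕ)))) (Bs t (p + (k + 1 : ℕ) + 1)) (C (t p)) q hE0' hE1' hG'
    (XX h h3 _ p) (by rw [← map_mul, ← map_mul, ← map_mul, ← map_mul, ← map_mul, ← map_mul,
      ← map_add, ← map_add]; rw [h.cub, map_zero])
    (S3s h3 _ p _)
  have e2 : p + ((k + 2 : ℕ) : ℤ) = p + (k + 1 : ℕ) + 1 := by push_cast; ring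
  rw [GG, e2, P_succ_right t p (k + 1), S]
  have H7 := congrArg (fun r => r * Bs t (p + (k + 1 : ℕ) + 1)) hE0'
  simp only [map_mul, map_add, mul_add, add_mul, mul_smul_comm, smul_mul_assoc, mul_assoc]
    at H7 ⊢
  have e3 : ((-1) ^ (k + 2) : Polynomial ℤ) = -((-1) ^ (k + 1)) := by ring
  rw [e3]
  linear_combination (norm := module) H7 - st

theorem state {t : ℤ → A} (h : Rel t) (h3 : Sym3 t) (p : ℤ) (k : ℕ) :
    EE t p k ∧ GG t p (k + 1) := by
  induction k with
  | zero => exact base h h3 p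
  | succ k ih => exact ⟨extract p (k + 1) ih.2, GG_succ h h3 p k ih.1 ih.2⟩

/-- `K_m` : `P (a_1 b + b a_1 - c a_1) = (-1)^m (b P c + c P b - c P c)`, `m ≥ 0`. -/
theorem KK {t : ℤ → A} (h : Rel t) (h3 : Sym3 t) (p : ℤ) (m : ℕ) :
    P t p m * (t p * t (p + m + 1) + t (p + m + 1) * t p - t (p + m) * t p)
      = (((-1 : ℤ) ^ m : ℤ) : A) * (t (p + m + 1) * (P t p m * t (p + m))
        + t (p + m) * (P t p m * t (p + m + 1)) - t (p + m) * (P t p m * t (p + m))) := by
  cases m with
  | zero =>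
    have hP : P t p 0 = 1 := rfl
    simp only [hP, Nat.cast_zero, add_zero, one_mul, pow_zero, Int.cast_one]
    abel
  | succ k =>
    obtain ⟨hE, hG⟩ := state h h3 p k
    have hG' := congrArg PowerSeries.constantCoeff (GG' p (k + 1) hG)
    simp only [map_add, map_neg, cc_smul, map_mul, cc_Bs, PowerSeries.constantCoeff_C] at hG'
    have c1 : ((((-1) ^ (k + 1) : Polynomial ℤ) * (1 - T)).coeff 0 : ℤ) = (-1) ^ (k + 1) := by
      rw [Polynomial.coeff_zero_eq_eval_zero]
      simp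
    have c2 : ((1 - T + T ^ 2 : Polynomial ℤ).coeff 0 : ℤ) = 1 := by
      simp
    have c3 : ((1 - T : Polynomial ℤ).coeff 0 : ℤ) = 1 := by
      simp
    have c4 : (((1 - T + T ^ 2) * T : Polynomial ℤ).coeff 0 : ℤ) = 0 := by
      simp
    have c5 : ((((-1) ^ (k + 1) : Polynomial ℤ)).coeff 0 : ℤ) = (-1) ^ (k + 1) := by
      rw [Polynomial.coeff_zero_eq_eval_zero]
      simp
    rw [c1, c2, c3, c4, c5] at hG'
    rw [EE] at hE
    have hE' := congrArg (fun r => r * t (p + (k + 1 : ℕ) + 1)) hE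
    simp only [mul_assoc] at hE'
    rw [Int.cast_one, one_mul, Int.cast_zero, zero_mul, add_zero, one_mul, one_mul, ← hE'] at hG'
    set P' := P t p (k + 1) with hP'
    set c := t (p + (k + 1 : ℕ)) with hc
    set b := t (p + (k + 1 : ℕ) + 1) with hb
    rcases Int.isUnit_iff.1 (show IsUnit ((-1 : ℤ) ^ k) from (isUnit_one.neg).pow k) with u | u
    · rw [pow_succ, u] at hG' ⊢
      rw [← sub_eq_zero] at hG' ⊢
      rw [← hG']
      push_cast
      noncomm_ring
    · rw [pow_succ, u] at hG' ⊢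
      rw [← sub_eq_zero] at hG' ⊢
      rw [← neg_eq_zero, ← hG']
      push_cast
      noncomm_ring

end Pool.Agent.X330.MTJ
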