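import Pool.Agent.X330.MTJ.Step
import Pool.Agent.X330.MT.Chain

/-! Power series over the word algebra. -/

namespace Pool.Agent.X330.MTJ

open Pool.Agent.X287.MTRing Pool.Agent.X330.MT PowerSeries

variable {A : Type*} [Ring A]

/-- Power series are an algebra over the integral polynomials in the variable. -/
noncomputable instance algT : Algebra (Polynomial ℤ) (PowerSeries A) :=
  RingHom.toAlgebra' (Polynomial.eval₂RingHom' (Int.castRingHom (PowerSeries A)) PowerSeries.X
    (fun a => (Int.cast_commute a _))) (by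
      intro c x
      induction c using Polynomial.induction_on' with
      | add p q hp hq => rw [map_add, add_mul, mul_add, hp, hq]
      | monomial n a =>
        simp only [Polynomial.eval₂RingHom', RingHom.coe_mk, MonoidHom.coe_mk, OneHom.coe_mk,
          Polynomial.eval₂_monomial]
        have h1 : Commute (PowerSeries.X : PowerSeries A) x := (PowerSeries.commute_X x).symm
        have h2 := (h1.pow_left n)
        have h3 : Commute ((Int.castRingHom (PowerSeries A)) a) x := Int.cast_commute a x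
        exact (h3.mul_left h2))

/-- The variable as a scalar. -/
noncomputable abbrev T : Polynomial ℤ := Polynomial.X

theorem T_smul (f : PowerSeries A) : T • f = PowerSeries.X * f := by
  rw [Algebra.smul_def]
  congr 1
  change Polynomial.eval₂RingHom' _ _ _ Polynomial.X = _
  simp [Polynomial.eval₂RingHom']

theorem coeff_zero_T (f : PowerSeries A) : PowerSeries.coeff 0 (T • f) = 0 := by
  rw [T_smul]
  simp

theorem coeff_succ_T (n : ℕ) (f : PowerSeries A) :
    PowerSeries.coeff (n + 1) (T • f) = PowerSeries.coeff n f := by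
  rw [T_smul, PowerSeries.coeff_succ_X_mul]

theorem T_cancel {f g : PowerSeries A} (h : T • f = T • g) : f = g := by
  ext n
  rw [← coeff_succ_T, h, coeff_succ_T]

/-- `∑ t_{q+i} T^i`. -/
noncomputable def Bs (t : ℤ → A) (q : ℤ) : PowerSeries A := PowerSeries.mk fun i => t (q + i)

theorem Bs_eq (t : ℤ → A) (q : ℤ) : Bs t q = C (t q) + T • Bs t (q + 1) := by
  ext n
  cases n with
  | zero =>
    rw [map_add, coeff_zero_T, add_zero, Bs, PowerSeries.coeff_mk]
    simp
  | succ n =>
    rw [map_add, coeff_succ_T, PowerSeries.coeff_C, if_neg (by omega), zero_add, Bs, Bs,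
      PowerSeries.coeff_mk, PowerSeries.coeff_mk]
    congr 1
    push_cast
    ring

theorem Q0 {t : ℤ → A} (h : Rel t) (q : ℤ) :
    Bs t (q - 1) * Bs t (q - 1) - Bs t (q - 1) * Bs t q + Bs t q * Bs t q = 0 := by
  ext n
  simp only [map_add, map_sub, PowerSeries.coeff_mul, map_zero]
  rw [← Finset.sum_sub_distrib, ← Finset.sum_add_distrib]
  apply Finset.sum_involution (fun x _ => (x.2, x.1))
  · rintro ⟨i, j⟩ hij
    have r := h.rel (q - 1 + i) (q - 1 + j)
    simp only [Bs, PowerSeries.coeff_mk]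
    have e1 : q - 1 + (i : ℤ) + 1 = q + i := by ring
    have e2 : q - 1 + (j : ℤ) + 1 = q + j := by ring
    rw [e1, e2] at r
    rw [← r]
  · rintro ⟨i, j⟩ hij hne heq
    apply hne
    simp only [Prod.mk.injEq] at heq
    obtain ⟨rfl, _⟩ := heq
    have r := h.adj (q - 1 + j)
    simp only [Bs, PowerSeries.coeff_mk]
    have e1 : q - 1 + (j : ℤ) + 1 = q + j := by ring
    rw [e1] at r
    rw [r]
    abel
  · rintro ⟨i, j⟩ hij
    simpa [add_comm] using hij
  · rintro ⟨i, j⟩ hij
    rfl

theorem Q1 {t : ℤ → A} (h : Rel t) (q : ℤ) :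
    (1 - T + T ^ 2) • (Bs t q * Bs t q) = (1 - T) • (C (t (q - 1)) * Bs t q)
      - T • (Bs t q * C (t (q - 1))) - C (t (q - 1)) * C (t (q - 1)) := by
  have e := Q0 h q
  have e1 := Bs_eq t (q - 1)
  have e2 : q - 1 + 1 = q := by ring
  rw [e2] at e1
  rw [e1] at e
  simp only [mul_add, add_mul, mul_smul_comm, smul_mul_assoc] at e
  linear_combination (norm := module) e

theorem XX {t : ℤ → A} (h : Rel t) (h3 : Sym3 t) (q p : ℤ) :
    Bs t q * (Bs t q * C (t p)) + Bs t q * (C (t p) * Bs t q) + C (t p) * (Bs t q * Bs t q)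
      = 0 := by
  ext n
  have e1 : PowerSeries.coeff n (Bs t q * (Bs t q * C (t p)))
      = ∑ x ∈ Finset.HasAntidiagonal.antidiagonal n, t (q + x.1) * (t (q + x.2) * t p) := by
    rw [PowerSeries.coeff_mul]
    apply Finset.sum_congr rfl
    intro x _
    rw [PowerSeries.coeff_mul_C, Bs, PowerSeries.coeff_mk, PowerSeries.coeff_mk]
  have e2 : PowerSeries.coeff n (Bs t q * (C (t p) * Bs t q))
      = ∑ x ∈ Finset.HasAntidiagonal.antidiagonal n, t (q + x.1) * (t p * t (q + x.2)) := by
    rw [PowerSeries.coeff_mul]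
    apply Finset.sum_congr rfl
    intro x _
    rw [PowerSeries.coeff_C_mul, Bs, PowerSeries.coeff_mk, PowerSeries.coeff_mk]
  have e3 : PowerSeries.coeff n (C (t p) * (Bs t q * Bs t q))
      = ∑ x ∈ Finset.HasAntidiagonal.antidiagonal n, t p * (t (q + x.1) * t (q + x.2)) := by
    rw [PowerSeries.coeff_C_mul, PowerSeries.coeff_mul, Finset.mul_sum]
    apply Finset.sum_congr rfl
    intro x _
    rw [Bs, PowerSeries.coeff_mk, PowerSeries.coeff_mk]
  rw [map_add, map_add, e1, e2, e3, map_zero, ← Finset.sum_add_distrib, ← Finset.sum_add_distrib]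
  apply Finset.sum_involution (fun x _ => (x.2, x.1))
  · rintro ⟨i, j⟩ hij
    have r := h3 (q + i) (q + j) p
    rw [← r]
    abel
  · rintro ⟨i, j⟩ hij hne heq
    apply hne
    simp only [Prod.mk.injEq] at heq
    obtain ⟨rfl, _⟩ := heq
    have r := h.cub p (q + j)
    rw [← r]
    abel
  · rintro ⟨i, j⟩ hij
    simpa [add_comm] using hij
  · rintro ⟨i, j⟩ hij
    rfl

theorem S3s {t : ℤ → A} (h3 : Sym3 t) (q p d : ℤ) :
    Bs t q * (C (t p) * C (t d)) + Bs t q * (C (t d) * C (t p)) + C (t p) * (Bs t q * C (t d))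
      + C (t p) * (C (t d) * Bs t q) + C (t d) * (Bs t q * C (t p))
      + C (t d) * (C (t p) * Bs t q) = 0 := by
  ext n
  simp only [map_add, map_zero, PowerSeries.coeff_C_mul, ← map_mul, PowerSeries.coeff_mul_C, Bs,
    PowerSeries.coeff_mk]
  have r := h3 (q + n) p d
  rw [← r]

theorem aaX {t : ℤ → A} (h : Rel t) (q p : ℤ) :
    Bs t q * (C (t p) * C (t p)) + C (t p) * (Bs t q * C (t p))
      + C (t p) * (C (t p) * Bs t q) = 0 := by
  ext n
  simp only [map_add, map_zero, PowerSeries.coeff_C_mul, ← map_mul, PowerSeries.coeff_mul_C, Bs,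
    PowerSeries.coeff_mk]
  have r := h.cub (q + n) p
  rw [← r]

end Pool.Agent.X330.MTJ
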