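import Mathlib

/-! The algebraic step. -/

namespace Pool.Agent.X330.MTJ

theorem step {K R : Type*} [CommRing K] [Ring R] [Algebra K R] (t s : K) (P S d X a : R)
    (hQ : (1 - t + t ^ 2) • (X * X) = (1 - t) • (d * X) - t • (X * d) - d * d)
    (hE0 : s • (P * (d * a)) = S * (P * d) + d * (P * d))
    (hE1 : s • (P * a) = - (S * P))
    (hG : -((1 - t) • (d * (P * d))) + S * (P * X) + (1 - t + t ^ 2) • (d * (P * X))
      + (1 - t + t ^ 2) • (X * (P * d)) + ((1 - t + t ^ 2) * t) • (X * (P * X))
      = - (s • (P * (d * a))) + (s * (1 - t)) • (P * (X * a)))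
    (hXX : X * (X * a) + X * (a * X) + a * (X * X) = 0)
    (hc : a * (d * d) + d * (a * d) + d * (d * a) = 0)
    (h3 : X * (a * d) + X * (d * a) + a * (X * d) + a * (d * X) + d * (X * a) + d * (a * X) = 0) :
    (1 - t + t ^ 2) • (X * (P * (d * X)))
      = - (s • (P * (d * (a * X)))) - (s * (1 - t)) • (P * (d * (X * a))) := by
  have H1 := congrArg (fun r => r * X) hG
  have H2 := congrArg (fun r => d * (P * r)) hQ
  have H3 := congrArg (fun r => X * (P * r)) hQ
  have H4 := congrArg (fun r => S * (P * r)) hQ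
  have H5 := congrArg (fun r => r * d) hG
  have H6 := congrArg (fun r => r * d) hE0
  have H8 := congrArg (fun r => P * r) hXX
  have H9 := congrArg (fun r => P * (r * a)) hQ
  have H10 := congrArg (fun r => P * (a * r)) hQ
  have H11 := congrArg (fun r => P * r) hc
  have H12 := congrArg (fun r => P * r) h3
  have H13 := congrArg (fun r => r * (d * X)) hE1
  simp only [mul_add, mul_sub, add_mul, sub_mul, neg_mul, mul_neg, mul_smul_comm, smul_mul_assoc,
    mul_assoc, mul_zero, zero_mul] at H1 H2 H3 H4 H5 H6 H8 H9 H10 H11 H12 H13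
  linear_combination (norm := module) (1 - t + t ^ 2) • (H1 - H2 - t • H3) - H4 + t • H5 - H6
    + (1 - t) • (s • ((1 - t + t ^ 2) • H8 - H9 - H10) + s • H11 + (t * s) • H12 - H13)

end Pool.Agent.X330.MTJ
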