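import Pool.Agent.X330.MTJ.J

/-! The word `P_{n+1} P_n`. -/

namespace Pool.Agent.X330.MTJ

open Pool.Agent.X287.MTRing Pool.Agent.X330.MT

variable {A : Type*} [Ring A]

/-- Doubling the last letter or the first letter gives the same. -/
theorem dbl {t : ℤ → A} (h : Rel t) (m : ℕ) (p : ℤ) :
    P t p (m + 1) * t (p + m) = t p * P t p (m + 1) := by
  induction m generalizing p with
  | zero => simp [P, inc]
  | succ m ih =>
    have e := ih (p + 1)
    have e1 : p + 1 + (m : ℤ) = p + (m + 1 : ℕ) := by push_cast; ring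
    rw [e1] at e
    have e2 : P t p (m + 1 + 1) = t p * (t (p + 1) * P t (p + 1 + 1) m) := by
      rw [P_succ, P_succ]
    have a := h.adj p
    have c := h.cube p
    have key : t p * (t (p + 1) * t (p + 1)) = t p * (t p * t (p + 1)) := by
      rw [a, mul_add, c, zero_add]
    calc P t p (m + 1 + 1) * t (p + (m + 1 : ℕ))
        = t p * (P t (p + 1) (m + 1) * t (p + (m + 1 : ℕ))) := by rw [P_succ, mul_assoc]
      _ = t p * (t (p + 1) * (t (p + 1) * P t (p + 1 + 1) m)) := by rw [e, P_succ]
      _ = (t p * (t (p + 1) * t (p + 1))) * P t (p + 1 + 1) m := by noncomm_ring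
      _ = t p * P t p (m + 1 + 1) := by rw [key, e2]; noncomm_ring

theorem B_first {t : ℤ → A} (h : Rel t) (p : ℤ) (k : ℕ) :
    B t p (k + 1) * t p = Om t p (k + 1) := by
  rw [B_succ_right, Om_succ_right]
  have c := h.cube p
  rw [add_mul, mul_assoc, mul_assoc, c, mul_zero, zero_add, mul_assoc]

/-- `P_{n+1} P_n = Om_[2,n+1] a_1`. -/
theorem TN {t : ℤ → A} (h : Rel t) (h3 : Sym3 t) (p : ℤ) (n : ℕ) :
    P t p (n + 1) * P t p n = Om t (p + 1) n * t p := by
  induction n with
  | zero => simp [P, inc, Om]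
  | succ m ih =>
    set Q := P t p (m + 1) with hQ
    set O' := Om t (p + 1) m with hO'
    set b := t (p + (m + 1 : ℕ)) with hb
    set aM := t (p + m) with haM
    set a0 := t (p - 1) with ha0
    set a := t p with ha
    have sq : Q * Q = Om t p (m + 1) := P_sq h h3 (m + 1) p
    have hPN : P t p (m + 1 + 1) = Q * b := P_succ_right t p (m + 1)
    have hPm : P t p (m + 1) = P t p m * aM := P_succ_right t p m
    -- Om' a aM = Om_M
    have h1 : O' * a * aM = Om t p (m + 1) := by
      rw [← ih, mul_assoc, ← hPm, ← hQ, sq]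
    have h2 : Om t p (m + 1) * a = 0 := h.Om_mul p (m + 1) (le_refl _) (by push_cast; omega)
    have h2' : Om t p (m + 1) * aM = 0 :=
      h.Om_mul p (m + 1) (by omega) (by push_cast; omega)
    have h0 : O' * (a * a) = Om t p (m + 1) := (Om_succ_right t p m).symm
    -- a Om' a = (-1)^m Om_M
    have h4 : a * (O' * a) = (((-1 : ℤ) ^ m : ℤ) : A) * Om t p (m + 1) := by
      rw [← mul_assoc, h.E, smul_mul_assoc, B_first h, zsmul_eq_mul]
    have h5 : Q * aM * P t p m = (((-1 : ℤ) ^ m : ℤ) : A) * Om t p (m + 1) := by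
      rw [dbl h m p, mul_assoc, ih, ← h4]
    -- the two evaluations of Q * NP (m + 2)
    have J1 := JJ h h3 p (m + 1)
    have J0 := JJ h h3 p m
    have S1 := NP_succ t p (m + 1)
    have eb : p + ((m + 1 : ℕ) : ℤ) - 1 = p + m := by push_cast; ring
    rw [eb, J1, J0] at S1
    have S2 := congrArg (fun z => Q * z) S1
    -- the relation between a0, aM, a, b
    have r := h.rel (p - 1) (p + m)
    have e1 : p - 1 + 1 = p := by ring
    have e2 : p + (m : ℤ) + 1 = p + (m + 1 : ℕ) := by push_cast; ring
    rw [e1, e2, ← ha0, ← haM, ← ha, ← hb] at r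
    have r' : a0 * (b - aM) = a * b + b * a + aM * a0 - aM * a := by
      rw [← sub_eq_zero, ← neg_eq_zero, ← r]
      noncomm_ring
    have cb := h.cub (p + (m + 1 : ℕ)) p
    have cb' : a * a * b + a * b * a = - (b * (a * a)) := by
      rw [← sub_eq_zero, ← cb]
      noncomm_ring
    have k1 : O' * a * a0 * (b - aM) = - (O' * b * (a * a)) + Om t p (m + 1) * a0 := by
      calc O' * a * a0 * (b - aM) = O' * a * (a0 * (b - aM)) := by noncomm_ring
        _ = O' * (a * a * b + a * b * a) + (O' * a * aM) * a0 - (O' * a * aM) * a := by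
            rw [r']; noncomm_ring
        _ = _ := by rw [cb', h1, h2]; noncomm_ring
    -- the last word
    have h6 : O' * a * b * a = O' * b * t (p + 1) * a := by
      rcases Nat.eq_zero_or_pos m with hm | hm
      · have eb2 : b = t (p + 1) := by rw [hb, hm]; simp
        have eO : O' = 1 := by rw [hO', hm]; rfl
        have ad := h.adj p
        have cu := h.cube p
        rw [eO, eb2, one_mul, one_mul]
        calc a * t (p + 1) * a = (a * a + t (p + 1) * t (p + 1)) * a := by rw [← ad]
          _ = a * (a * a) + t (p + 1) * t (p + 1) * a := by noncomm_ring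
          _ = _ := by rw [cu, zero_add]
      · have rl := h.rel p (p + m)
        rw [e2] at rl
        have z1 : O' * t (p + 1) = 0 := h.Om_mul (p + 1) m (le_refl _) (by omega)
        have z2 : O' * aM = 0 := h.Om_mul (p + 1) m (by omega) (by omega)
        have w := congrArg (fun z => O' * z) rl
        simp only [mul_zero] at w
        have w' : O' * a * b = O' * a * aM + O' * b * t (p + 1) := by
          have : O' * (a * aM - a * b + t (p + 1) * b + (aM * a - aM * t (p + 1)
              + b * t (p + 1))) = O' * a * aM - O' * a * b + (O' * t (p + 1)) * b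
              + (O' * aM) * a - (O' * aM) * t (p + 1) + O' * b * t (p + 1) := by noncomm_ring
          rw [this, z1, z2] at w
          rw [← sub_eq_zero, ← neg_eq_zero, ← w]
          noncomm_ring
        rw [w', add_mul, h1, h2, zero_add]
    have h7 : O' * b * t (p + 1) = (((-1 : ℤ) ^ m : ℤ) : A) * Om t (p + 1) (m + 1) := by
      have eE := h.E' (p + 1) m
      have e3 : p + 1 + (m : ℤ) = p + (m + 1 : ℕ) := by push_cast; ring
      rw [e3] at eE
      rw [eE, smul_mul_assoc, B_first h, zsmul_eq_mul]
    -- conclusion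
    have main : (((-1 : ℤ) ^ (m + 1) : ℤ) : A) * (Q * b * Q)
        = O' * b * (a * a) + O' * (a * a) * b := by
      have l : Q * (-(Q * a0) + (((-1 : ℤ) ^ (m + 1) : ℤ) : A) * (b * Q))
          = -(Q * Q * a0) + (((-1 : ℤ) ^ (m + 1) : ℤ) : A) * (Q * b * Q) := by
        rcases Int.isUnit_iff.1 (show IsUnit ((-1 : ℤ) ^ (m + 1)) from
          (isUnit_one.neg).pow (m + 1)) with u | u <;> rw [u] <;> push_cast <;> noncomm_ring
      have l2 : Q * ((-(P t p m * a0) + (((-1 : ℤ) ^ m : ℤ) : A) * (aM * P t p m)) * (b - aM))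
          = -(Q * P t p m * a0 * (b - aM)) + (((-1 : ℤ) ^ m : ℤ) : A)
            * (Q * aM * P t p m * (b - aM)) := by
        rcases Int.isUnit_iff.1 (show IsUnit ((-1 : ℤ) ^ m) from
          (isUnit_one.neg).pow m) with u | u <;> rw [u] <;> push_cast <;> noncomm_ring
      rw [← hQ, ← hb, ← ha0, ← haM, l, l2, sq, h5, ih, k1] at S2
      have sg : (((-1 : ℤ) ^ m : ℤ) : A) * ((((-1 : ℤ) ^ m : ℤ) : A) * Om t p (m + 1) * (b - aM))
          = Om t p (m + 1) * b := by
        rw [mul_assoc, ← mul_assoc, ← Int.cast_mul, ← mul_pow]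
        simp only [mul_neg, mul_one, neg_neg, one_pow, Int.cast_one, one_mul]
        rw [mul_sub, h2', sub_zero]
      rw [sg] at S2
      rw [h0]
      rw [← sub_eq_zero] at S2 ⊢
      rw [← S2]
      noncomm_ring
    have fin : (((-1 : ℤ) ^ (m + 1) : ℤ) : A) * (Q * b * Q)
        = (((-1 : ℤ) ^ (m + 1) : ℤ) : A) * (Om t (p + 1) (m + 1) * a) := by
      rw [main]
      have s1 : O' * b * (a * a) + O' * (a * a) * b = - (O' * a * b * a) := by
        rw [← sub_eq_zero]
        have := congrArg (fun z => O' * z) cb'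
        rw [← sub_eq_zero] at this
        rw [← this]
        noncomm_ring
      rw [s1, h6, h7, pow_succ]
      push_cast
      noncomm_ring
    have sgn : ∀ z : A, (((-1 : ℤ) ^ (m + 1) : ℤ) : A) * ((((-1 : ℤ) ^ (m + 1) : ℤ) : A) * z)
        = z := by
      intro z
      rw [← mul_assoc, ← Int.cast_mul, ← mul_pow]
      simp
    rw [hPN, ← sgn (Q * b * Q), fin, sgn]

end Pool.Agent.X330.MTJ
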